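import Mathlib

/-!
# The regular conjugate locus need not be dense in sub-Riemannian geometry

We show that for the product of the (three-dimensional) Heisenberg group and the line, with its
standard left-invariant sub-Riemannian structure (rank 3 in dimension 4), and `q` the origin, the
regular conjugate locus is not dense in the conjugate locus.  Near the covector
`l₀ = (0, 0, π, 1)`, which is normal and abnormal, the conjugate covectors are exactly the
`(0, 0, c, w)`, and none of them is regular since whole segments of lines through `0` are conjugate.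
-/

set_option autoImplicit false

open scoped ContDiff Topology
open Set Filter

namespace Pool.Agent.Results.MP_f98bae_gt.HeisenbergLine

/-- The vector fields obtained from the fields `X i` by taking iterated Lie brackets. -/
inductive IsIteratedBracket {n k : ℕ} (X : Fin k → (Fin n → ℝ) → (Fin n → ℝ)) :
    ((Fin n → ℝ) → (Fin n → ℝ)) → Prop
  | field (i : Fin k) : IsIteratedBracket X (X i)
  | bracket (V W : (Fin n → ℝ) → (Fin n → ℝ)) : IsIteratedBracket X V →
      IsIteratedBracket X W → IsIteratedBracket X (VectorField.lieBracket ℝ V W)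

/-- A sub-Riemannian structure on the connected manifold `ℝ^n`, given by a global smooth
orthonormal frame `X 1, …, X k` of a bracket-generating distribution of rank `k`: the
distribution is `D_x = span {X i x}`, with the inner product for which the `X i x` are
orthonormal. -/
structure SubRiemannian (n k : ℕ) where
  /-- the orthonormal frame of the distribution -/
  X : Fin k → (Fin n → ℝ) → (Fin n → ℝ)
  smooth : ∀ i, ContDiff ℝ ∞ (X i)
  linearIndependent : ∀ x, LinearIndependent ℝ (fun i => X i x)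
  bracketGenerating : ∀ x, Submodule.span ℝ {v | ∃ V, IsIteratedBracket X V ∧ V x = v} = ⊤

namespace SubRiemannian

variable {n k : ℕ} (S : SubRiemannian n k)

/-- The sub-Riemannian Hamiltonian `H(x, p) = 1/2 ∑ ⟨p, X i x⟩ ^ 2`, where a covector at `x ∈ ℝ^n`
is identified with the vector `p ∈ ℝ^n` of its coordinates. -/
noncomputable def hamiltonian (x p : Fin n → ℝ) : ℝ := (1 / 2) * ∑ i, (p ⬝ᵥ S.X i x) ^ 2

/-- `(x, p)` solves Hamilton's equations `x_j' = ∂H/∂p_j`, `p_j' = - ∂H/∂x_j` on `[0, 1]`. -/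
def IsExtremal (x p : ℝ → Fin n → ℝ) : Prop :=
  ∀ t ∈ Icc (0 : ℝ) 1, ∀ j,
    HasDerivWithinAt (fun s => x s j)
      (fderiv ℝ (fun m => S.hamiltonian (x t) m) (p t) (Pi.single j 1)) (Icc 0 1) t ∧
    HasDerivWithinAt (fun s => p s j)
      (-(fderiv ℝ (fun y => S.hamiltonian y (p t)) (x t) (Pi.single j 1))) (Icc 0 1) t

/-- The domain of the exponential map at `q`: the covectors for which the Hamiltonian flow is
defined up to time one. -/
def expDomain (q : Fin n → ℝ) : Set (Fin n → ℝ) :=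
  {l | ∃ x p, S.IsExtremal x p ∧ x 0 = q ∧ p 0 = l}

open Classical in
/-- The sub-Riemannian exponential map at `q`: it sends a covector `l` to the time-one endpoint
of the normal geodesic with initial covector `l` (and takes the value `q` outside its
domain). -/
noncomputable def expMap (q l : Fin n → ℝ) : Fin n → ℝ :=
  if h : ∃ x p, S.IsExtremal x p ∧ x 0 = q ∧ p 0 = l then h.choose 1 else q

/-- The conjugate locus at `q`: the covectors `l` with `H(q, l) ≠ 0` which are critical points of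
the exponential map, that is, the differential of `expMap q` at `l` is not invertible. -/
def conj (q : Fin n → ℝ) : Set (Fin n → ℝ) :=
  {l | l ∈ S.expDomain q ∧ S.hamiltonian q l ≠ 0 ∧
    ¬ Function.Bijective (fderiv ℝ (S.expMap q) l)}

/-- The regular conjugate locus at `q`: the conjugate covectors with a neighbourhood `U` such
that every straight line through `0` meets `Conj ∩ U` in at most one point. -/
def regularConj (q : Fin n → ℝ) : Set (Fin n → ℝ) :=
  {l | l ∈ S.conj q ∧ ∃ U ∈ 𝓝 l, ∀ v : Fin n → ℝ, v ≠ 0 →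
    (range (fun s : ℝ => s • v) ∩ (S.conj q ∩ U)).Subsingleton}

end SubRiemannian

/-! ### The product of the Heisenberg group and the line -/

/-- The orthonormal frame of the product of the Heisenberg group with `ℝ`. -/
noncomputable def frame : Fin 3 → (Fin 4 → ℝ) → (Fin 4 → ℝ) :=
  ![fun x => ![1, 0, -(x 1) / 2, 0], fun x => ![0, 1, (x 0) / 2, 0], fun _ => ![0, 0, 0, 1]]

lemma frame_smooth (i : Fin 3) : ContDiff ℝ ∞ (frame i) := by
  fin_cases i
  · show ContDiff ℝ ∞ (fun x : Fin 4 → ℝ => (![1, 0, -(x 1) / 2, 0] : Fin 4 → ℝ))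
    rw [contDiff_pi]
    intro j
    fin_cases j
    · exact contDiff_const
    · exact contDiff_const
    · show ContDiff ℝ ∞ (fun x : Fin 4 → ℝ => -(x 1) / 2)
      fun_prop
    · exact contDiff_const
  · show ContDiff ℝ ∞ (fun x : Fin 4 → ℝ => (![0, 1, (x 0) / 2, 0] : Fin 4 → ℝ))
    rw [contDiff_pi]
    intro j
    fin_cases j
    · exact contDiff_const
    · exact contDiff_const
    · show ContDiff ℝ ∞ (fun x : Fin 4 → ℝ => (x 0) / 2)
      fun_prop
    · exact contDiff_const
  · exact contDiff_const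

lemma frame_linearIndependent (x : Fin 4 → ℝ) : LinearIndependent ℝ (fun i => frame i x) := by
  rw [Fintype.linearIndependent_iff]
  intro g hg
  have h0 := congrFun hg 0
  have h1 := congrFun hg 1
  have h3 := congrFun hg 3
  simp [Fin.sum_univ_three, frame] at h0 h1 h3
  intro i
  fin_cases i
  · exact h0
  · exact h1
  · exact h3

/-- The differential in a direction is the derivative along the line in this direction. -/
lemma fderiv_apply_of_hasDerivAt {E F : Type*} [NormedAddCommGroup E] [NormedSpace ℝ E]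
    [NormedAddCommGroup F] [NormedSpace ℝ F] {f : E → F} {x v : E} {d : F}
    (hf : DifferentiableAt ℝ f x) (h : HasDerivAt (fun s : ℝ => f (x + s • v)) d 0) :
    fderiv ℝ f x v = d := by
  rw [← hf.lineDeriv_eq_fderiv]
  exact h.deriv

lemma hasDerivAt_quad (A B C : ℝ) :
    HasDerivAt (fun s : ℝ => A + B * s + C * s ^ 2) B 0 := by
  have h1 : HasDerivAt (fun s : ℝ => B * s) (B * 1) 0 := (hasDerivAt_id (0 : ℝ)).const_mul B
  have h2 : HasDerivAt (fun s : ℝ => C * s ^ 2) (C * (((2 : ℕ) : ℝ) * 0 ^ (2 - 1))) 0 :=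
    (hasDerivAt_pow 2 (0 : ℝ)).const_mul C
  have h3 := (h1.const_add A).add h2
  exact h3.congr_deriv (by simp)

lemma hasDerivAt_of_quad {f : ℝ → ℝ} (A B C : ℝ) (h : ∀ s, f s = A + B * s + C * s ^ 2) :
    HasDerivAt f B 0 := by
  have : f = fun s => A + B * s + C * s ^ 2 := funext h
  rw [this]
  exact hasDerivAt_quad A B C

lemma lieBracket_frame (x : Fin 4 → ℝ) :
    VectorField.lieBracket ℝ (frame 0) (frame 1) x = ![0, 0, 1, 0] := by
  have hd : ∀ i, DifferentiableAt ℝ (frame i) x := fun i =>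
    ((frame_smooth i).differentiable (by simp)).differentiableAt
  have h1 : fderiv ℝ (frame 1) x (frame 0 x) = ![0, 0, 1 / 2, 0] := by
    apply fderiv_apply_of_hasDerivAt (hd 1)
    rw [hasDerivAt_pi]
    intro j
    fin_cases j
    · exact hasDerivAt_const _ _
    · exact hasDerivAt_const _ _
    · show HasDerivAt (fun s : ℝ => (x 0 + s * 1) / 2) (1 / 2) 0
      exact hasDerivAt_of_quad (x 0 / 2) (1 / 2) 0 (fun s => by ring)
    · exact hasDerivAt_const _ _
  have h0 : fderiv ℝ (frame 0) x (frame 1 x) = ![0, 0, -(1 / 2), 0] := by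
    apply fderiv_apply_of_hasDerivAt (hd 0)
    rw [hasDerivAt_pi]
    intro j
    fin_cases j
    · exact hasDerivAt_const _ _
    · exact hasDerivAt_const _ _
    · show HasDerivAt (fun s : ℝ => -(x 1 + s * 1) / 2) (-(1 / 2)) 0
      exact hasDerivAt_of_quad (-(x 1) / 2) (-(1 / 2)) 0 (fun s => by ring)
    · exact hasDerivAt_const _ _
  unfold VectorField.lieBracket
  rw [h1, h0]
  funext j
  fin_cases j <;> norm_num

/-- The product of the Heisenberg group and the line, as a sub-Riemannian structure on `ℝ^4`. -/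
noncomputable def heisenbergLine : SubRiemannian 4 3 where
  X := frame
  smooth := frame_smooth
  linearIndependent := frame_linearIndependent
  bracketGenerating := by
    intro x
    rw [eq_top_iff]
    intro v _
    have hmem : ∀ V, IsIteratedBracket frame V →
        V x ∈ Submodule.span ℝ {v | ∃ V, IsIteratedBracket frame V ∧ V x = v} := fun V hV =>
      Submodule.subset_span ⟨V, hV, rfl⟩
    have h0 := hmem _ (IsIteratedBracket.field 0)
    have h1 := hmem _ (IsIteratedBracket.field 1)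
    have h2 := hmem _ (IsIteratedBracket.field 2)
    have h3 := hmem _ (IsIteratedBracket.bracket _ _ (IsIteratedBracket.field 0)
      (IsIteratedBracket.field 1))
    rw [lieBracket_frame] at h3
    have hv : v = v 0 • frame 0 x + v 1 • frame 1 x + v 3 • frame 2 x +
        (v 2 + v 0 * x 1 / 2 - v 1 * x 0 / 2) • (![0, 0, 1, 0] : Fin 4 → ℝ) := by
      funext j
      fin_cases j <;> simp [frame]
      ring
    rw [hv]
    exact add_mem (add_mem (add_mem (Submodule.smul_mem _ _ h0) (Submodule.smul_mem _ _ h1))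
      (Submodule.smul_mem _ _ h2)) (Submodule.smul_mem _ _ h3)

lemma hamiltonian_eq (x p : Fin 4 → ℝ) : heisenbergLine.hamiltonian x p =
    (1 / 2) * ((p 0 - x 1 * p 2 / 2) ^ 2 + (p 1 + x 0 * p 2 / 2) ^ 2 + p 3 ^ 2) := by
  unfold SubRiemannian.hamiltonian
  rw [Fin.sum_univ_three]
  simp only [heisenbergLine, frame, dotProduct, Fin.sum_univ_four]
  simp
  ring

lemma partial_p (x p : Fin 4 → ℝ) (v : Fin 4 → ℝ) :
    fderiv ℝ (fun m => heisenbergLine.hamiltonian x m) p v =
      (p 0 - x 1 * p 2 / 2) * (v 0 - x 1 * v 2 / 2) +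
      (p 1 + x 0 * p 2 / 2) * (v 1 + x 0 * v 2 / 2) + p 3 * v 3 := by
  simp only [hamiltonian_eq]
  apply fderiv_apply_of_hasDerivAt (by fun_prop)
  simp only [Pi.add_apply, Pi.smul_apply, smul_eq_mul]
  exact hasDerivAt_of_quad
    ((1 / 2) * ((p 0 - x 1 * p 2 / 2) ^ 2 + (p 1 + x 0 * p 2 / 2) ^ 2 + p 3 ^ 2)) _
    ((1 / 2) * ((v 0 - x 1 * v 2 / 2) ^ 2 + (v 1 + x 0 * v 2 / 2) ^ 2 + v 3 ^ 2))
    (fun s => by ring)

lemma partial_x (x p : Fin 4 → ℝ) (v : Fin 4 → ℝ) :
    fderiv ℝ (fun y => heisenbergLine.hamiltonian y p) x v =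
      -(p 0 - x 1 * p 2 / 2) * (v 1 * p 2 / 2) +
      (p 1 + x 0 * p 2 / 2) * (v 0 * p 2 / 2) := by
  simp only [hamiltonian_eq]
  apply fderiv_apply_of_hasDerivAt (by fun_prop)
  simp only [Pi.add_apply, Pi.smul_apply, smul_eq_mul]
  exact hasDerivAt_of_quad
    ((1 / 2) * ((p 0 - x 1 * p 2 / 2) ^ 2 + (p 1 + x 0 * p 2 / 2) ^ 2 + p 3 ^ 2)) _
    ((1 / 2) * ((v 1 * p 2 / 2) ^ 2 + (v 0 * p 2 / 2) ^ 2))
    (fun s => by ring)

/-- Hamilton's equations written out. -/
lemma isExtremal_iff (x p : ℝ → Fin 4 → ℝ) : heisenbergLine.IsExtremal x p ↔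
    ∀ t ∈ Icc (0 : ℝ) 1,
      HasDerivWithinAt (fun s => x s 0) (p t 0 - x t 1 * p t 2 / 2) (Icc 0 1) t ∧
      HasDerivWithinAt (fun s => x s 1) (p t 1 + x t 0 * p t 2 / 2) (Icc 0 1) t ∧
      HasDerivWithinAt (fun s => x s 2) (((p t 1 + x t 0 * p t 2 / 2) * x t 0 -
        (p t 0 - x t 1 * p t 2 / 2) * x t 1) / 2) (Icc 0 1) t ∧
      HasDerivWithinAt (fun s => x s 3) (p t 3) (Icc 0 1) t ∧
      HasDerivWithinAt (fun s => p s 0) (-((p t 1 + x t 0 * p t 2 / 2) * p t 2 / 2))
        (Icc 0 1) t ∧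
      HasDerivWithinAt (fun s => p s 1) ((p t 0 - x t 1 * p t 2 / 2) * p t 2 / 2)
        (Icc 0 1) t ∧
      HasDerivWithinAt (fun s => p s 2) 0 (Icc 0 1) t ∧
      HasDerivWithinAt (fun s => p s 3) 0 (Icc 0 1) t := by
  have e0 : ∀ (x p : Fin 4 → ℝ), fderiv ℝ (fun m => heisenbergLine.hamiltonian x m) p
      (Pi.single 0 1) = p 0 - x 1 * p 2 / 2 := by
    intro x p; rw [partial_p]; simp
  have e1 : ∀ (x p : Fin 4 → ℝ), fderiv ℝ (fun m => heisenbergLine.hamiltonian x m) p
      (Pi.single 1 1) = p 1 + x 0 * p 2 / 2 := by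
    intro x p; rw [partial_p]; simp
  have e2 : ∀ (x p : Fin 4 → ℝ), fderiv ℝ (fun m => heisenbergLine.hamiltonian x m) p
      (Pi.single 2 1) = ((p 1 + x 0 * p 2 / 2) * x 0 - (p 0 - x 1 * p 2 / 2) * x 1) / 2 := by
    intro x p; rw [partial_p]; simp; ring
  have e3 : ∀ (x p : Fin 4 → ℝ), fderiv ℝ (fun m => heisenbergLine.hamiltonian x m) p
      (Pi.single 3 1) = p 3 := by
    intro x p; rw [partial_p]; simp
  have f0 : ∀ (x p : Fin 4 → ℝ), fderiv ℝ (fun y => heisenbergLine.hamiltonian y p) x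
      (Pi.single 0 1) = (p 1 + x 0 * p 2 / 2) * p 2 / 2 := by
    intro x p; rw [partial_x]; simp; ring
  have f1 : ∀ (x p : Fin 4 → ℝ), fderiv ℝ (fun y => heisenbergLine.hamiltonian y p) x
      (Pi.single 1 1) = -((p 0 - x 1 * p 2 / 2) * p 2 / 2) := by
    intro x p; rw [partial_x]; simp; ring
  have f2 : ∀ (x p : Fin 4 → ℝ), fderiv ℝ (fun y => heisenbergLine.hamiltonian y p) x
      (Pi.single 2 1) = 0 := by
    intro x p; rw [partial_x]; simp
  have f3 : ∀ (x p : Fin 4 → ℝ), fderiv ℝ (fun y => heisenbergLine.hamiltonian y p) x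
      (Pi.single 3 1) = 0 := by
    intro x p; rw [partial_x]; simp
  unfold SubRiemannian.IsExtremal
  constructor
  · intro h t ht
    have h0 := h t ht 0
    have h1 := h t ht 1
    have h2 := h t ht 2
    have h3 := h t ht 3
    rw [e0, f0] at h0
    rw [e1, f1, neg_neg] at h1
    rw [e2, f2, neg_zero] at h2
    rw [e3, f3, neg_zero] at h3
    exact ⟨h0.1, h1.1, h2.1, h3.1, h0.2, h1.2, h2.2, h3.2⟩
  · intro h t ht j
    obtain ⟨h0, h1, h2, h3, k0, k1, k2, k3⟩ := h t ht
    fin_cases j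
    · show HasDerivWithinAt (fun s => x s 0) (fderiv ℝ _ _ (Pi.single 0 1)) _ _ ∧
        HasDerivWithinAt (fun s => p s 0) (-(fderiv ℝ _ _ (Pi.single 0 1))) _ _
      rw [e0, f0]; exact ⟨h0, k0⟩
    · show HasDerivWithinAt (fun s => x s 1) (fderiv ℝ _ _ (Pi.single 1 1)) _ _ ∧
        HasDerivWithinAt (fun s => p s 1) (-(fderiv ℝ _ _ (Pi.single 1 1))) _ _
      rw [e1, f1, neg_neg]; exact ⟨h1, k1⟩
    · show HasDerivWithinAt (fun s => x s 2) (fderiv ℝ _ _ (Pi.single 2 1)) _ _ ∧
        HasDerivWithinAt (fun s => p s 2) (-(fderiv ℝ _ _ (Pi.single 2 1))) _ _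
      rw [e2, f2, neg_zero]; exact ⟨h2, k2⟩
    · show HasDerivWithinAt (fun s => x s 3) (fderiv ℝ _ _ (Pi.single 3 1)) _ _ ∧
        HasDerivWithinAt (fun s => p s 3) (-(fderiv ℝ _ _ (Pi.single 3 1))) _ _
      rw [e3, f3, neg_zero]; exact ⟨h3, k3⟩

lemma const_of_deriv_zero {f : ℝ → ℝ}
    (h : ∀ t ∈ Icc (0 : ℝ) 1, HasDerivWithinAt f 0 (Icc 0 1) t) :
    ∀ t ∈ Icc (0 : ℝ) 1, f t = f 0 := by
  apply constant_of_derivWithin_zero
  · intro t ht
    exact (h t ht).differentiableWithinAt
  · intro t ht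
    exact (h t (Ico_subset_Icc_self ht)).derivWithin
      (uniqueDiffOn_Icc zero_lt_one t (Ico_subset_Icc_self ht))

/-- The explicit exponential map of `heisenbergLine` at `0`, away from `l 2 = 0`. -/
noncomputable def expFormula (l : Fin 4 → ℝ) : Fin 4 → ℝ :=
  ![(l 0 * Real.sin (l 2) - l 1 * (1 - Real.cos (l 2))) / l 2,
    (l 0 * (1 - Real.cos (l 2)) + l 1 * Real.sin (l 2)) / l 2,
    (l 0 ^ 2 + l 1 ^ 2) * (l 2 - Real.sin (l 2)) / (2 * l 2 ^ 2),
    l 3]

lemma hasDerivWithinAt_sin (c t : ℝ) (s : Set ℝ) :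
    HasDerivWithinAt (fun r : ℝ => Real.sin (c * r)) (c * Real.cos (c * t)) s t := by
  have h1 : HasDerivAt (fun r : ℝ => c * r) c t := by
    simpa using (hasDerivAt_id t).const_mul c
  exact (h1.sin.congr_deriv (by ring)).hasDerivWithinAt

lemma hasDerivWithinAt_cos (c t : ℝ) (s : Set ℝ) :
    HasDerivWithinAt (fun r : ℝ => Real.cos (c * r)) (-(c * Real.sin (c * t))) s t := by
  have h1 : HasDerivAt (fun r : ℝ => c * r) c t := by
    simpa using (hasDerivAt_id t).const_mul c
  exact (h1.cos.congr_deriv (by ring)).hasDerivWithinAt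

lemma endpoint_eq (x p : ℝ → Fin 4 → ℝ) (h : heisenbergLine.IsExtremal x p) (hx : x 0 = 0)
    (hc : p 0 2 ≠ 0) : x 1 = expFormula (p 0) := by
  rw [isExtremal_iff] at h
  set a := p 0 0 with ha
  set b := p 0 1 with hb
  set c := p 0 2 with hcdef
  set w := p 0 3 with hw
  have hp2 : ∀ t ∈ Icc (0 : ℝ) 1, p t 2 = c :=
    const_of_deriv_zero (f := fun s => p s 2) fun t ht => (h t ht).2.2.2.2.2.2.1
  have hp3 : ∀ t ∈ Icc (0 : ℝ) 1, p t 3 = w :=
    const_of_deriv_zero (f := fun s => p s 3) fun t ht => (h t ht).2.2.2.2.2.2.2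
  have hx0 : ∀ j, x 0 j = 0 := fun j => by rw [hx]; rfl
  -- the rotating momenta
  have hu : ∀ t ∈ Icc (0 : ℝ) 1, HasDerivWithinAt (fun s => p s 0 - x s 1 * p s 2 / 2)
      (-((p t 1 + x t 0 * p t 2 / 2) * c)) (Icc 0 1) t := by
    intro t ht
    obtain ⟨h0, h1, h2, h3, k0, k1, k2, k3⟩ := h t ht
    have := k0.sub ((h1.mul k2).div_const 2)
    refine this.congr_deriv ?_
    rw [hp2 t ht]
    ring
  have hv : ∀ t ∈ Icc (0 : ℝ) 1, HasDerivWithinAt (fun s => p s 1 + x s 0 * p s 2 / 2)
      ((p t 0 - x t 1 * p t 2 / 2) * c) (Icc 0 1) t := by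
    intro t ht
    obtain ⟨h0, h1, h2, h3, k0, k1, k2, k3⟩ := h t ht
    have := k1.add ((h0.mul k2).div_const 2)
    refine this.congr_deriv ?_
    rw [hp2 t ht]
    ring
  have hA : ∀ t ∈ Icc (0 : ℝ) 1, (p t 0 - x t 1 * p t 2 / 2) * Real.cos (c * t) +
      (p t 1 + x t 0 * p t 2 / 2) * Real.sin (c * t) = a := by
    intro t ht
    have := const_of_deriv_zero (f := fun s => (p s 0 - x s 1 * p s 2 / 2) * Real.cos (c * s) +
      (p s 1 + x s 0 * p s 2 / 2) * Real.sin (c * s)) (by
        intro t ht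
        have := ((hu t ht).mul (hasDerivWithinAt_cos c t (Icc 0 1))).add
          ((hv t ht).mul (hasDerivWithinAt_sin c t (Icc 0 1)))
        refine this.congr_deriv ?_
        ring) t ht
    simpa [hx0] using this
  have hB : ∀ t ∈ Icc (0 : ℝ) 1, -(p t 0 - x t 1 * p t 2 / 2) * Real.sin (c * t) +
      (p t 1 + x t 0 * p t 2 / 2) * Real.cos (c * t) = b := by
    intro t ht
    have := const_of_deriv_zero (f := fun s => -(p s 0 - x s 1 * p s 2 / 2) * Real.sin (c * s) +
      (p s 1 + x s 0 * p s 2 / 2) * Real.cos (c * s)) (by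
        intro t ht
        have := ((hu t ht).neg.mul (hasDerivWithinAt_sin c t (Icc 0 1))).add
          ((hv t ht).mul (hasDerivWithinAt_cos c t (Icc 0 1)))
        refine this.congr_deriv ?_
        simp only [Pi.neg_apply]
        ring) t ht
    simpa [hx0] using this
  have hU : ∀ t ∈ Icc (0 : ℝ) 1, p t 0 - x t 1 * p t 2 / 2 =
      a * Real.cos (c * t) - b * Real.sin (c * t) := by
    intro t ht
    rw [← hA t ht, ← hB t ht]
    have := Real.sin_sq_add_cos_sq (c * t)
    linear_combination (-(p t 0 - x t 1 * p t 2 / 2)) * this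
  have hV : ∀ t ∈ Icc (0 : ℝ) 1, p t 1 + x t 0 * p t 2 / 2 =
      a * Real.sin (c * t) + b * Real.cos (c * t) := by
    intro t ht
    rw [← hA t ht, ← hB t ht]
    have := Real.sin_sq_add_cos_sq (c * t)
    linear_combination (-(p t 1 + x t 0 * p t 2 / 2)) * this
  have hX0 : ∀ t ∈ Icc (0 : ℝ) 1, x t 0 =
      (a * Real.sin (c * t) - b * (1 - Real.cos (c * t))) / c := by
    intro t ht
    have := const_of_deriv_zero (f := fun s => x s 0 -
      (a * Real.sin (c * s) - b * (1 - Real.cos (c * s))) / c) (by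
        intro t ht
        have := ((h t ht).1).sub ((((hasDerivWithinAt_sin c t (Icc 0 1)).const_mul a).sub
          (((hasDerivWithinAt_cos c t (Icc 0 1)).const_sub 1).const_mul b)).div_const c)
        refine this.congr_deriv ?_
        rw [hU t ht]
        field_simp
        ring) t ht
    simp only [hx0, mul_zero, Real.sin_zero, Real.cos_zero, sub_self, zero_div] at this
    linarith
  have hX1 : ∀ t ∈ Icc (0 : ℝ) 1, x t 1 =
      (a * (1 - Real.cos (c * t)) + b * Real.sin (c * t)) / c := by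
    intro t ht
    have := const_of_deriv_zero (f := fun s => x s 1 -
      (a * (1 - Real.cos (c * s)) + b * Real.sin (c * s)) / c) (by
        intro t ht
        have := ((h t ht).2.1).sub (((((hasDerivWithinAt_cos c t (Icc 0 1)).const_sub 1).const_mul
          a).add ((hasDerivWithinAt_sin c t (Icc 0 1)).const_mul b)).div_const c)
        refine this.congr_deriv ?_
        rw [hV t ht]
        field_simp
        ring) t ht
    simp only [hx0, mul_zero, Real.sin_zero, Real.cos_zero, sub_self, zero_div, add_zero] at this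
    linarith
  have hX2 : ∀ t ∈ Icc (0 : ℝ) 1, x t 2 =
      (a ^ 2 + b ^ 2) * (c * t - Real.sin (c * t)) / (2 * c ^ 2) := by
    intro t ht
    have := const_of_deriv_zero (f := fun s => x s 2 -
      (a ^ 2 + b ^ 2) * (c * s - Real.sin (c * s)) / (2 * c ^ 2)) (by
        intro t ht
        have hid : HasDerivWithinAt (fun s : ℝ => c * s) c (Icc 0 1) t := by
          simpa using ((hasDerivAt_id t).const_mul c).hasDerivWithinAt
        have := ((h t ht).2.2.1).sub (((hid.sub
          (hasDerivWithinAt_sin c t (Icc 0 1))).const_mul (a ^ 2 + b ^ 2)).div_const (2 * c ^ 2))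
        refine this.congr_deriv ?_
        rw [hU t ht, hV t ht, hX0 t ht, hX1 t ht]
        have hsc := Real.sin_sq_add_cos_sq (c * t)
        field_simp
        linear_combination (a ^ 2 + b ^ 2) * hsc) t ht
    simp only [hx0, mul_zero, Real.sin_zero, sub_self, zero_div] at this
    linarith
  have hX3 : ∀ t ∈ Icc (0 : ℝ) 1, x t 3 = w * t := by
    intro t ht
    have := const_of_deriv_zero (f := fun s => x s 3 - w * s) (by
        intro t ht
        have hid : HasDerivWithinAt (fun s : ℝ => w * s) w (Icc 0 1) t := by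
          simpa using ((hasDerivAt_id t).const_mul w).hasDerivWithinAt
        have := ((h t ht).2.2.2.1).sub hid
        refine this.congr_deriv ?_
        rw [hp3 t ht]
        ring) t ht
    simp only [hx0, mul_zero, sub_self] at this
    linarith
  have h1 : (1 : ℝ) ∈ Icc (0 : ℝ) 1 := ⟨zero_le_one, le_refl 1⟩
  funext j
  fin_cases j
  · show x 1 0 = _
    rw [hX0 1 h1]
    simp [expFormula, ha, hb, hcdef]
  · show x 1 1 = _
    rw [hX1 1 h1]
    simp [expFormula, ha, hb, hcdef]
  · show x 1 2 = _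
    rw [hX2 1 h1]
    simp [expFormula, ha, hb, hcdef]
  · show x 1 3 = _
    rw [hX3 1 h1]
    simp [expFormula, hw]

lemma exists_extremal (l : Fin 4 → ℝ) (hc : l 2 ≠ 0) :
    ∃ x p, heisenbergLine.IsExtremal x p ∧ x 0 = 0 ∧ p 0 = l := by
  set a := l 0 with ha
  set b := l 1 with hb
  set c := l 2 with hcdef
  set w := l 3 with hw
  let x0 : ℝ → ℝ := fun t => (a * Real.sin (c * t) - b * (1 - Real.cos (c * t))) / c
  let x1 : ℝ → ℝ := fun t => (a * (1 - Real.cos (c * t)) + b * Real.sin (c * t)) / c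
  let x2 : ℝ → ℝ := fun t => (a ^ 2 + b ^ 2) * (c * t - Real.sin (c * t)) / (2 * c ^ 2)
  let p0 : ℝ → ℝ := fun t => a * Real.cos (c * t) - b * Real.sin (c * t) + x1 t * c / 2
  let p1 : ℝ → ℝ := fun t => a * Real.sin (c * t) + b * Real.cos (c * t) - x0 t * c / 2
  have hx0 : ∀ t s, HasDerivWithinAt x0 (a * Real.cos (c * t) - b * Real.sin (c * t)) s t := by
    intro t s
    have := (((hasDerivWithinAt_sin c t s).const_mul a).sub
          (((hasDerivWithinAt_cos c t s).const_sub 1).const_mul b)).div_const c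
    refine this.congr_deriv ?_
    field_simp
  have hx1 : ∀ t s, HasDerivWithinAt x1 (a * Real.sin (c * t) + b * Real.cos (c * t)) s t := by
    intro t s
    have := ((((hasDerivWithinAt_cos c t s).const_sub 1).const_mul
          a).add ((hasDerivWithinAt_sin c t s).const_mul b)).div_const c
    refine this.congr_deriv ?_
    field_simp
  refine ⟨fun t => ![x0 t, x1 t, x2 t, w * t], fun t => ![p0 t, p1 t, c, w], ?_, ?_, ?_⟩
  · rw [isExtremal_iff]
    intro t ht
    have hUt : p0 t - x1 t * c / 2 = a * Real.cos (c * t) - b * Real.sin (c * t) := by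
      simp only [p0]; ring
    have hVt : p1 t + x0 t * c / 2 = a * Real.sin (c * t) + b * Real.cos (c * t) := by
      simp only [p1]; ring
    refine ⟨?_, ?_, ?_, ?_, ?_, ?_, ?_, ?_⟩
    · show HasDerivWithinAt x0 (p0 t - x1 t * c / 2) (Icc 0 1) t
      rw [hUt]; exact hx0 t _
    · show HasDerivWithinAt x1 (p1 t + x0 t * c / 2) (Icc 0 1) t
      rw [hVt]; exact hx1 t _
    · show HasDerivWithinAt x2 (((p1 t + x0 t * c / 2) * x0 t -
        (p0 t - x1 t * c / 2) * x1 t) / 2) (Icc 0 1) t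
      rw [hUt, hVt]
      have hid : HasDerivWithinAt (fun s : ℝ => c * s) c (Icc 0 1) t := by
        simpa using ((hasDerivAt_id t).const_mul c).hasDerivWithinAt
      have := ((hid.sub (hasDerivWithinAt_sin c t (Icc 0 1))).const_mul (a ^ 2 + b ^ 2)).div_const
        (2 * c ^ 2)
      refine this.congr_deriv ?_
      simp only [x0, x1]
      have hsc := Real.sin_sq_add_cos_sq (c * t)
      field_simp
      linear_combination (-(a ^ 2 + b ^ 2)) * hsc
    · show HasDerivWithinAt (fun s => w * s) w (Icc 0 1) t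
      simpa using ((hasDerivAt_id t).const_mul w).hasDerivWithinAt
    · show HasDerivWithinAt p0 (-((p1 t + x0 t * c / 2) * c / 2)) (Icc 0 1) t
      rw [hVt]
      have := (((hasDerivWithinAt_cos c t (Icc 0 1)).const_mul a).sub
        ((hasDerivWithinAt_sin c t (Icc 0 1)).const_mul b)).add
        (((hx1 t (Icc 0 1)).mul_const c).div_const 2)
      refine this.congr_deriv ?_
      ring
    · show HasDerivWithinAt p1 ((p0 t - x1 t * c / 2) * c / 2) (Icc 0 1) t
      rw [hUt]
      have := (((hasDerivWithinAt_sin c t (Icc 0 1)).const_mul a).add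
        ((hasDerivWithinAt_cos c t (Icc 0 1)).const_mul b)).sub
        (((hx0 t (Icc 0 1)).mul_const c).div_const 2)
      refine this.congr_deriv ?_
      ring
    · exact hasDerivWithinAt_const _ _ _
    · exact hasDerivWithinAt_const _ _ _
  · funext j
    fin_cases j <;> simp [x0, x1, x2]
  · funext j
    fin_cases j <;> simp [p0, p1, x0, x1, ha, hb, hcdef, hw]

lemma expMap_eq (l : Fin 4 → ℝ) (hc : l 2 ≠ 0) :
    heisenbergLine.expMap 0 l = expFormula l := by
  have h := exists_extremal l hc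
  unfold SubRiemannian.expMap
  rw [dif_pos h]
  obtain ⟨p, hp, hx0, hp0⟩ := h.choose_spec
  have := endpoint_eq _ p hp hx0 (by rw [hp0]; exact hc)
  rw [this, hp0]

lemma expMap_eventuallyEq (l : Fin 4 → ℝ) (hc : l 2 ≠ 0) :
    heisenbergLine.expMap 0 =ᶠ[𝓝 l] expFormula := by
  have h1 : ∀ᶠ m : Fin 4 → ℝ in 𝓝 l, m 2 ≠ 0 :=
    (continuous_apply 2).continuousAt.eventually_ne hc
  filter_upwards [h1] with m hm
  exact expMap_eq m hm

lemma differentiableAt_expFormula (l : Fin 4 → ℝ) (hc : l 2 ≠ 0) :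
    DifferentiableAt ℝ expFormula l := by
  rw [differentiableAt_pi]
  intro j
  fin_cases j
  · show DifferentiableAt ℝ (fun l : Fin 4 → ℝ =>
      (l 0 * Real.sin (l 2) - l 1 * (1 - Real.cos (l 2))) / l 2) l
    have h1 : DifferentiableAt ℝ (fun l : Fin 4 → ℝ =>
      l 0 * Real.sin (l 2) - l 1 * (1 - Real.cos (l 2))) l := by fun_prop
    have h2 : DifferentiableAt ℝ (fun l : Fin 4 → ℝ => l 2) l := by fun_prop
    exact h1.mul (h2.fun_inv hc)
  · show DifferentiableAt ℝ (fun l : Fin 4 → ℝ =>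
      (l 0 * (1 - Real.cos (l 2)) + l 1 * Real.sin (l 2)) / l 2) l
    have h1 : DifferentiableAt ℝ (fun l : Fin 4 → ℝ =>
      l 0 * (1 - Real.cos (l 2)) + l 1 * Real.sin (l 2)) l := by fun_prop
    have h2 : DifferentiableAt ℝ (fun l : Fin 4 → ℝ => l 2) l := by fun_prop
    exact h1.mul (h2.fun_inv hc)
  · show DifferentiableAt ℝ (fun l : Fin 4 → ℝ =>
      (l 0 ^ 2 + l 1 ^ 2) * (l 2 - Real.sin (l 2)) / (2 * l 2 ^ 2)) l
    have h1 : DifferentiableAt ℝ (fun l : Fin 4 → ℝ =>
      (l 0 ^ 2 + l 1 ^ 2) * (l 2 - Real.sin (l 2))) l := by fun_prop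
    have h2 : DifferentiableAt ℝ (fun l : Fin 4 → ℝ => 2 * l 2 ^ 2) l := by fun_prop
    exact h1.mul (h2.fun_inv (by positivity))
  · show DifferentiableAt ℝ (fun l : Fin 4 → ℝ => l 3) l
    fun_prop

/-- The differential of the exponential map of `heisenbergLine` at `0`. -/
lemma fderiv_expMap (l m : Fin 4 → ℝ) (hc : l 2 ≠ 0) :
    fderiv ℝ (heisenbergLine.expMap 0) l m =
      ![((m 0 * Real.sin (l 2) + l 0 * Real.cos (l 2) * m 2 - m 1 * (1 - Real.cos (l 2)) -
          l 1 * Real.sin (l 2) * m 2) * l 2 -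
          (l 0 * Real.sin (l 2) - l 1 * (1 - Real.cos (l 2))) * m 2) / l 2 ^ 2,
        ((m 0 * (1 - Real.cos (l 2)) + l 0 * Real.sin (l 2) * m 2 + m 1 * Real.sin (l 2) +
          l 1 * Real.cos (l 2) * m 2) * l 2 -
          (l 0 * (1 - Real.cos (l 2)) + l 1 * Real.sin (l 2)) * m 2) / l 2 ^ 2,
        (((2 * l 0 * m 0 + 2 * l 1 * m 1) * (l 2 - Real.sin (l 2)) +
          (l 0 ^ 2 + l 1 ^ 2) * (m 2 - Real.cos (l 2) * m 2)) * (2 * l 2 ^ 2) -
          (l 0 ^ 2 + l 1 ^ 2) * (l 2 - Real.sin (l 2)) * (4 * l 2 * m 2)) / (2 * l 2 ^ 2) ^ 2,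
        m 3] := by
  rw [(expMap_eventuallyEq l hc).fderiv_eq]
  apply fderiv_apply_of_hasDerivAt (differentiableAt_expFormula l hc)
  have hl : ∀ j, HasDerivAt (fun s : ℝ => l j + s * m j) (m j) 0 := by
    intro j
    simpa using ((hasDerivAt_id (0 : ℝ)).mul_const (m j)).const_add (l j)
  have hs := (hl 2).sin
  have hk := (hl 2).cos
  have hne : l 2 + 0 * m 2 ≠ 0 := by simpa using hc
  rw [hasDerivAt_pi]
  intro j
  fin_cases j
  · show HasDerivAt (fun s : ℝ => ((l 0 + s * m 0) * Real.sin (l 2 + s * m 2) -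
      (l 1 + s * m 1) * (1 - Real.cos (l 2 + s * m 2))) / (l 2 + s * m 2)) _ 0
    have := (((hl 0).mul hs).sub ((hl 1).mul (hk.const_sub 1))).div (hl 2) hne
    refine this.congr_deriv ?_
    simp
    ring
  · show HasDerivAt (fun s : ℝ => ((l 0 + s * m 0) * (1 - Real.cos (l 2 + s * m 2)) +
      (l 1 + s * m 1) * Real.sin (l 2 + s * m 2)) / (l 2 + s * m 2)) _ 0
    have := (((hl 0).mul (hk.const_sub 1)).add ((hl 1).mul hs)).div (hl 2) hne
    refine this.congr_deriv ?_
    simp
    ring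
  · show HasDerivAt (fun s : ℝ => ((l 0 + s * m 0) ^ 2 + (l 1 + s * m 1) ^ 2) *
      (l 2 + s * m 2 - Real.sin (l 2 + s * m 2)) / (2 * (l 2 + s * m 2) ^ 2)) _ 0
    have h2 : 2 * (l 2 + 0 * m 2) ^ 2 ≠ 0 := by positivity
    have := (((((hl 0).pow 2).add ((hl 1).pow 2)).mul ((hl 2).sub hs))).div
      (((hl 2).pow 2).const_mul 2) h2
    refine this.congr_deriv ?_
    simp
    ring
  · show HasDerivAt (fun s : ℝ => l 3 + s * m 3) (m 3) 0
    exact hl 3

/-- If `l 0 = l 1 = 0`, the exponential map does not depend to first order on `l 2`. -/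
lemma not_bijective (l : Fin 4 → ℝ) (hc : l 2 ≠ 0) (h0 : l 0 = 0) (h1 : l 1 = 0) :
    ¬ Function.Bijective (fderiv ℝ (heisenbergLine.expMap 0) l) := by
  intro hb
  have : fderiv ℝ (heisenbergLine.expMap 0) l (Pi.single 2 1) =
      fderiv ℝ (heisenbergLine.expMap 0) l 0 := by
    rw [fderiv_expMap l _ hc, fderiv_expMap l _ hc, h0, h1]
    funext j
    fin_cases j <;> simp
  have h2 := congrFun (hb.injective this) 2
  simp at h2

/-- Away from `l 0 = l 1 = 0` and for `l 2` as below the differential is invertible. -/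
lemma bijective (l : Fin 4 → ℝ) (hc : l 2 ≠ 0) (hcos : 1 - Real.cos (l 2) ≠ 0)
    (hK : 2 - 2 * Real.cos (l 2) - l 2 * Real.sin (l 2) ≠ 0) (hr : l 0 ^ 2 + l 1 ^ 2 ≠ 0) :
    Function.Bijective (fderiv ℝ (heisenbergLine.expMap 0) l) := by
  have hinj : Function.Injective (fderiv ℝ (heisenbergLine.expMap 0) l) := by
    rw [injective_iff_map_eq_zero]
    intro m hm
    rw [fderiv_expMap l m hc] at hm
    have e0 := congrFun hm 0
    have e1 := congrFun hm 1
    have e2 := congrFun hm 2
    have e3 := congrFun hm 3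
    simp only [Matrix.cons_val_zero, Matrix.cons_val_one, Matrix.cons_val, Pi.zero_apply]
      at e0 e1 e2 e3
    have hsc := Real.sin_sq_add_cos_sq (l 2)
    set s := Real.sin (l 2) with hs
    set k := Real.cos (l 2) with hk
    set a := l 0 with ha
    set b := l 1 with hb
    set c := l 2 with hcc
    have e0' : (m 0 * s + a * k * m 2 - m 1 * (1 - k) - b * s * m 2) * c -
        (a * s - b * (1 - k)) * m 2 = 0 := by
      rcases div_eq_zero_iff.mp e0 with h | h
      · exact h
      · exact absurd h (by positivity)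
    have e1' : (m 0 * (1 - k) + a * s * m 2 + m 1 * s + b * k * m 2) * c -
        (a * (1 - k) + b * s) * m 2 = 0 := by
      rcases div_eq_zero_iff.mp e1 with h | h
      · exact h
      · exact absurd h (by positivity)
    have e2' : ((2 * a * m 0 + 2 * b * m 1) * (c - s) + (a ^ 2 + b ^ 2) * (m 2 - k * m 2)) *
        (2 * c ^ 2) - (a ^ 2 + b ^ 2) * (c - s) * (4 * c * m 2) = 0 := by
      rcases div_eq_zero_iff.mp e2 with h | h
      · exact h
      · exact absurd h (by positivity)
    -- combine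
    have hI : c * (2 - 2 * k) * (a * m 0 + b * m 1) +
        (a ^ 2 + b ^ 2) * (c * s - (2 - 2 * k)) * m 2 = 0 := by
      linear_combination (a * s - b * (1 - k)) * e0' + (a * (1 - k) + b * s) * e1' -
        (c * (a * m 0 + b * m 1) - (a ^ 2 + b ^ 2) * m 2) * hsc
    have hm2 : m 2 = 0 := by
      have h1 : (4 * c ^ 2 * (a ^ 2 + b ^ 2) * (2 - 2 * k - c * s)) * m 2 = 0 := by
        linear_combination (2 - 2 * k) * e2' - 4 * c * (c - s) * hI -
          4 * c ^ 2 * (a ^ 2 + b ^ 2) * m 2 * hsc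
      rcases mul_eq_zero.mp h1 with h | h
      · exact absurd h (mul_ne_zero (mul_ne_zero (by positivity) hr) hK)
      · exact h
    rw [hm2] at e0' e1'
    have g0 : m 0 * s - m 1 * (1 - k) = 0 := by
      have : (m 0 * s - m 1 * (1 - k)) * c = 0 := by linear_combination e0'
      rcases mul_eq_zero.mp this with h | h
      · exact h
      · exact absurd h hc
    have g1 : m 0 * (1 - k) + m 1 * s = 0 := by
      have : (m 0 * (1 - k) + m 1 * s) * c = 0 := by linear_combination e1'
      rcases mul_eq_zero.mp this with h | h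
      · exact h
      · exact absurd h hc
    have hm0 : m 0 = 0 := by
      have : 2 * (1 - k) * m 0 = 0 := by
        linear_combination s * g0 + (1 - k) * g1 - m 0 * hsc
      rcases mul_eq_zero.mp this with h | h
      · exact absurd h (mul_ne_zero two_ne_zero hcos)
      · exact h
    have hm1 : m 1 = 0 := by
      have : 2 * (1 - k) * m 1 = 0 := by
        linear_combination s * g1 - (1 - k) * g0 - m 1 * hsc
      rcases mul_eq_zero.mp this with h | h
      · exact absurd h (mul_ne_zero two_ne_zero hcos)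
      · exact h
    funext j
    fin_cases j
    · exact hm0
    · exact hm1
    · exact hm2
    · exact e3
  refine ⟨hinj, ?_⟩
  exact (LinearMap.injective_iff_surjective
    (f := (fderiv ℝ (heisenbergLine.expMap 0) l : (Fin 4 → ℝ) →ₗ[ℝ] (Fin 4 → ℝ)))).mp hinj

/-- The open set of covectors on which we describe the conjugate locus. -/
def goodSet : Set (Fin 4 → ℝ) :=
  {l | 0 < l 2 ∧ 0 < 1 - Real.cos (l 2) ∧ 0 < 2 - 2 * Real.cos (l 2) - l 2 * Real.sin (l 2)}

lemma isOpen_goodSet : IsOpen goodSet := by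
  have h1 : IsOpen {l : Fin 4 → ℝ | 0 < l 2} := isOpen_lt continuous_const (by fun_prop)
  have h2 : IsOpen {l : Fin 4 → ℝ | 0 < 1 - Real.cos (l 2)} :=
    isOpen_lt continuous_const (by fun_prop)
  have h3 : IsOpen {l : Fin 4 → ℝ | 0 < 2 - 2 * Real.cos (l 2) - l 2 * Real.sin (l 2)} :=
    isOpen_lt continuous_const (by fun_prop)
  exact h1.inter (h2.inter h3)

lemma mem_conj_iff (l : Fin 4 → ℝ) (hl : l ∈ goodSet) :
    l ∈ heisenbergLine.conj 0 ↔ l 0 = 0 ∧ l 1 = 0 ∧ l 3 ≠ 0 := by
  obtain ⟨hc, hcos, hK⟩ := hl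
  constructor
  · rintro ⟨-, hH, hnb⟩
    have hr : l 0 ^ 2 + l 1 ^ 2 = 0 := by
      by_contra hr
      exact hnb (bijective l hc.ne' hcos.ne' hK.ne' hr)
    have h0 : l 0 = 0 := by nlinarith [sq_nonneg (l 0), sq_nonneg (l 1)]
    have h1 : l 1 = 0 := by nlinarith [sq_nonneg (l 0), sq_nonneg (l 1)]
    refine ⟨h0, h1, ?_⟩
    intro h3
    apply hH
    rw [hamiltonian_eq, h0, h1, h3]
    simp
  · rintro ⟨h0, h1, h3⟩
    refine ⟨exists_extremal l hc.ne', ?_, not_bijective l hc.ne' h0 h1⟩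
    rw [hamiltonian_eq, h0, h1]
    simpa using h3

/-- **Theorem.** There are a sub-Riemannian manifold and a point `q` with non-empty conjugate
locus, for which the regular conjugate locus is not dense in the conjugate locus. -/
theorem result : ∃ (n k : ℕ) (S : SubRiemannian n k) (q : Fin n → ℝ),
    (S.conj q).Nonempty ∧ ¬ S.conj q ⊆ closure (S.regularConj q) := by
  refine ⟨4, 3, heisenbergLine, 0, ?_⟩
  set l₀ : Fin 4 → ℝ := ![0, 0, Real.pi, 1] with hl₀
  have hgood : l₀ ∈ goodSet := by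
    refine ⟨?_, ?_, ?_⟩
    · simpa [hl₀] using Real.pi_pos
    · simp [hl₀]
    · simp [hl₀]
  have hconj : l₀ ∈ heisenbergLine.conj 0 := by
    rw [mem_conj_iff _ hgood]
    simp [hl₀]
  refine ⟨⟨l₀, hconj⟩, fun hsub => ?_⟩
  obtain ⟨l, hlU, hlreg, V, hV, hline⟩ :=
    mem_closure_iff.mp (hsub hconj) goodSet isOpen_goodSet hgood
  obtain ⟨h0, h1, h3⟩ := (mem_conj_iff l hlU).mp hlreg
  have hl2 : l 2 ≠ 0 := hlU.1.ne'
  have hl0 : l ≠ 0 := fun h => hl2 (by rw [h]; rfl)
  have hcont : Tendsto (fun s : ℝ => s • l) (𝓝[≠] 1) (𝓝 l) := by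
    have : ContinuousAt (fun s : ℝ => s • l) 1 := by fun_prop
    have h := this.tendsto
    rw [one_smul] at h
    exact h.mono_left nhdsWithin_le_nhds
  have hev1 := hcont.eventually (isOpen_goodSet.mem_nhds hlU)
  have hev2 := hcont.eventually hV
  have hev3 : ∀ᶠ s : ℝ in 𝓝[≠] 1, s ≠ 0 :=
    (eventually_ne_nhds one_ne_zero).filter_mono nhdsWithin_le_nhds
  obtain ⟨s, hs1, hs2, hs3, hs4⟩ := (hev1.and (hev2.and (hev3.and self_mem_nhdsWithin))).exists
  have hsl : s • l ∈ heisenbergLine.conj 0 := by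
    rw [mem_conj_iff _ hs1]
    simp [h0, h1, h3, hs3]
  have := hline l hl0 ⟨⟨1, one_smul ℝ l⟩, hlreg, mem_of_mem_nhds hV⟩ ⟨⟨s, rfl⟩, hsl, hs2⟩
  have h5 := congrFun this 2
  simp only [Pi.smul_apply, smul_eq_mul] at h5
  have h6 : (s - 1) * l 2 = 0 := by linear_combination -h5
  rcases mul_eq_zero.mp h6 with h | h
  · exact hs4 (by simpa using sub_eq_zero.mp h)
  · exact hl2 h

end Pool.Agent.Results.MP_f98bae_gt.HeisenbergLine
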